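import Mathlib

/-!
# A universal partial cycle with diamondicity two

The alphabet has four letters, the word length is eight and the cyclic partial word has length
4096.  The wildcard is `none`.
-/

namespace Pool.Agent.Results.MP_f32aed_co.Diamondicity

/-- The window of length `n` at position `i` of the cyclic partial word `u` of length `N`
(over the alphabet `Fin a`, with `none` as the wildcard) covers the word `w`. -/
def Covers {a n N : ℕ} (u : ZMod N → Option (Fin a)) (i : ZMod N) (w : Fin n → Fin a) : Prop :=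
  ∀ j : Fin n, u (i + ((j : ℕ) : ZMod N)) = none ∨ u (i + ((j : ℕ) : ZMod N)) = some (w j)

/-- `u` is a universal partial cycle for the words of length `n` over `Fin a`: every word is
covered by the window at exactly one position. -/
def IsUpcycle {a N : ℕ} (n : ℕ) (u : ZMod N → Option (Fin a)) : Prop :=
  ∀ w : Fin n → Fin a, ∃! i : ZMod N, Covers u i w

/-- Every window of length `n` of `u` contains exactly `d` wildcards. -/
def HasDiamondicity {a N : ℕ} (n : ℕ) (u : ZMod N → Option (Fin a)) (d : ℕ) : Prop :=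
  ∀ i : ZMod N,
    (Finset.univ.filter fun j : Fin n => u (i + ((j : ℕ) : ZMod N)) = none).card = d

/-- The letters of the cycle, in base four. -/
def S : ℕ :=
  0x84e4384050982c445810a0c81c5064840860748410586c800424b8c0145468801414a8c00464788000687c801018acc00028bcc0105c6c84006c7c841850608c1858648c1c5460880c60708c0868748c0c647088145c6888046c78881c14a0cc1c10a4c40820b0c80c24b0cc0c20b4c4101ca8c8141cacc4002cb8c8042cbcc41818a4cc0828b4cc1810e4c458900474789020485c10e0c85c9000787c9024049850e48498d06404d8d00434b8d020089c50e0889cd06008dcd00038bcd02444d890a048dc90a4444820f4c448a0147468a030484c20f0c84ca010786ca034048860f48488e07404c8e01434a8e030088c60f0888ce07008cce01038ace0345448b0246458b030584cb020685cb0341488f0242498f030188cf020289cf03444c8a0b048cca0b444509c2c405414e8c05018ecc4501cecc05494087070980c74709c0c707414c8f07018ccf07494204c5898244c5c14e0cc5818e4cc5c94007c7898047c7c942848541ce8c8549c0878749c284040a83c4440ac3c404424f8c04028fcc4402cfcc044b4286054b4385040b82c6050b83c5440bc2c6450bc3c504434e8e05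434f8d04038ece05038fcd044ac3848442cf8c844bc286854bc385844a4187060a81c7460ac1c706424d8f06028dcf064ac187864a4304c48a8344c4c24f0cc4828f4cc4cb4206c5cb4305c48b8246c58b8345c4ca4107c68a8147c6ca4381084f4380090d82c0490dc2c0080e83c1080f83c0480ec3c1480fc3c009454e8808464f8908474f8809058ec84905cec808068fc908078fc84806cfc8094d40830a4e41830b0d80c34b0dc0c30a0e81c34a0ec1c30b454c8b0a464d8b0b058ccb0a068dcb0b4d4200c8ce4301c8cf4300c98d8240c88e8341c88f8340c9c54e08c8c64f08c9858e48c8868f48c9cd4003cace4103cb8d8043ca8e8143cbcd4282090f82c2490fc2c209474e8a09078eca094f4202c98f8242c9cf4280884ec381884fc3808945ce888846cf88894dc0838a4ec1838b4dc282894fc2800c4e47810c4f47800d0d86c04d0dc6c00c0e87c10c0f87c04c0ec7c14c0fc7c00d494a840c4a4b850c4b4b840d098ac44d09cac40c0a8bc50c0b8bc44c0acbc54c0bcbc40d4d44830e4e45830f0d84c34f0dc4c30e0e85c34e0ec5c30f4948870e4a49870f0988c74f09c8c70e0a89c74e0ac9c70f4d4600ccce4701cccf4700cd8d8640cc8e8741cc8f8740cdc94a04ccca4b05cccb4b04cd898a44cc8a8b45cc8b8b44cdcd4403cece4503cf8d8443ce8e8543cfc94807ceca4907cf898847ce8a8947cfcd46820d0f86c24d0fc6c20d4b4a860d0b8ac64d0bcac60d4f4602cd8f8642cdcb4a06cd8b8a46cdcf46808c4ec7818c4fc7808d49ca848c4acb858c4bcb848d4dc4838e4ec5838f49c8878e4ac9878f4dc6828d4bca868d4fc6800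

/-- The letter at position `i` (zero at the positions of the wildcards). -/
def dig (i : ℕ) : ℕ := if i % 4 = 0 then 0 else (S >>> (2 * (i % 4096))) % 4

/-- The window at position `i`, read in base four with zeros for the wildcards. -/
def code (i : ℕ) : ℕ :=
  dig i + 4 * dig (i + 1) + 16 * dig (i + 2) + 64 * dig (i + 3) + 256 * dig (i + 4)
    + 1024 * dig (i + 5) + 4096 * dig (i + 6) + 16384 * dig (i + 7)

/-- The weight of the first wildcard position of a window. -/
def wt (r : ℕ) : ℕ := if r = 0 then 1 else if r = 1 then 64 else if r = 2 then 16 else 4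

/-- The union of singletons as a bit mask. -/
def orOf (l : List ℕ) : ℕ := l.foldr (fun m acc => (1 <<< m) ||| acc) 0

theorem orOf_spec (l : List ℕ) (k : ℕ) (h : (orOf l).testBit k = true) : k ∈ l := by
  induction l with
  | nil => simp [orOf] at h
  | cons m l ih =>
    have e : orOf (m :: l) = (1 <<< m) ||| orOf l := rfl
    rw [e, Nat.testBit_lor, Bool.or_eq_true] at h
    rcases h with h | h
    · rw [Nat.one_shiftLeft, Nat.testBit_two_pow] at h
      have : m = k := by simpa using h
      simp [this]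
    · exact List.mem_cons_of_mem _ (ih h)

/-- The fillings of the two wildcards. -/
def fills : List ℕ := [0, 1, 2, 3, 256, 257, 258, 259, 512, 513, 514, 515, 768, 769, 770, 771]

theorem fills_spec : ∀ x ∈ fills, x % 256 < 4 ∧ x / 256 < 4 := by decide

/-- The mask of all fillings for the class `r`. -/
def pat (r : ℕ) : ℕ := orOf (fills.map (fun x => wt r * x))

/-- The mask of the codes of all words covered by the window at `i`. -/
def leaf (i : ℕ) : ℕ := pat (i % 4) <<< code i

/-- The union of the masks over a dyadic range of positions. -/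
def orRange : ℕ → ℕ → ℕ
  | 0, lo => leaf lo
  | k + 1, lo => orRange k lo ||| orRange k (lo + 2 ^ k)

theorem orRange_spec (w : ℕ) : ∀ k lo : ℕ, (orRange k lo).testBit w = true →
    ∃ i, lo ≤ i ∧ i < lo + 2 ^ k ∧ (leaf i).testBit w = true
  | 0, lo, h => ⟨lo, le_refl _, by simp, h⟩
  | k + 1, lo, h => by
    rw [orRange, Nat.testBit_lor, Bool.or_eq_true] at h
    rcases h with h | h
    · obtain ⟨i, h1, h2, h3⟩ := orRange_spec w k lo h
      exact ⟨i, h1, by rw [pow_succ]; omega, h3⟩
    · obtain ⟨i, h1, h2, h3⟩ := orRange_spec w k (lo + 2 ^ k) h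
      exact ⟨i, by omega, by rw [pow_succ]; omega, h3⟩

theorem big : orRange 12 0 = 2 ^ 65536 - 1 := by decide +kernel

theorem exists_index (w : ℕ) (hw : w < 65536) :
    ∃ i, i < 4096 ∧ ∃ c c' : ℕ, c < 4 ∧ c' < 4 ∧ w = code i + wt (i % 4) * (c + 256 * c') := by
  have h : (orRange 12 0).testBit w = true := by
    rw [big, Nat.testBit_two_pow_sub_one]
    simpa using hw
  obtain ⟨i, _, h2, h3⟩ := orRange_spec w 12 0 h
  have h2' : i < 4096 := by simpa using h2
  rw [leaf, Nat.testBit_shiftLeft, Bool.and_eq_true] at h3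
  obtain ⟨h4, h5⟩ := h3
  have h4' : code i ≤ w := by simpa using h4
  have h6 := orOf_spec _ _ h5
  rw [List.mem_map] at h6
  obtain ⟨x, hx, hx2⟩ := h6
  obtain ⟨hx3, hx4⟩ := fills_spec x hx
  refine ⟨i, h2', x % 256, x / 256, hx3, hx4, ?_⟩
  rw [Nat.mod_add_div]
  omega

theorem dig_lt (i : ℕ) : dig i < 4 := by
  unfold dig
  split_ifs
  · norm_num
  · exact Nat.mod_lt _ (by norm_num)

/-- The letter at position `k`, with the wildcard at the multiples of four. -/
def ltr (k : ℕ) : Option (Fin 4) := if k % 4 = 0 then none else some ⟨dig k, dig_lt k⟩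

/-- The cyclic partial word. -/
def u (i : ZMod 4096) : Option (Fin 4) := ltr i.val

theorem dig_mod (k : ℕ) : dig (k % 4096) = dig k := by
  unfold dig
  have h1 : k % 4096 % 4 = k % 4 := by omega
  rw [h1, Nat.mod_mod]

theorem ltr_none (k : ℕ) (h : k % 4 = 0) : ltr k = none := by
  unfold ltr
  rw [if_pos h]

theorem ltr_some (k : ℕ) (h : k % 4 ≠ 0) : ltr k = some ⟨dig k, dig_lt k⟩ := by
  unfold ltr
  rw [if_neg h]

theorem ltr_mod (k : ℕ) : ltr (k % 4096) = ltr k := by
  by_cases h : k % 4 = 0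
  · rw [ltr_none k h, ltr_none _ (by omega)]
  · rw [ltr_some k h, ltr_some _ (by omega)]
    congr 1
    exact Fin.ext (dig_mod k)

theorem u_natCast (k : ℕ) : u ((k : ℕ) : ZMod 4096) = ltr k := by
  unfold u
  rw [ZMod.val_natCast, ltr_mod]

theorem ltr_eq_none_iff (k : ℕ) : ltr k = none ↔ k % 4 = 0 := by
  constructor
  · intro h
    by_contra h2
    rw [ltr_some k h2] at h
    exact absurd h (by simp)
  · exact ltr_none k

/-- The number with the base four digits of the word `w`. -/
def num (w : Fin 8 → Fin 4) : ℕ :=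
  (w 0).val + 4 * (w 1).val + 16 * (w 2).val + 64 * (w 3).val + 256 * (w 4).val
    + 1024 * (w 5).val + 4096 * (w 6).val + 16384 * (w 7).val

theorem num_lt (w : Fin 8 → Fin 4) : num w < 65536 := by
  unfold num
  have h0 := (w 0).isLt
  have h1 := (w 1).isLt
  have h2 := (w 2).isLt
  have h3 := (w 3).isLt
  have h4 := (w 4).isLt
  have h5 := (w 5).isLt
  have h6 := (w 6).isLt
  have h7 := (w 7).isLt
  omega

theorem dig_zero (k : ℕ) (h : k % 4 = 0) : dig k = 0 := by
  unfold dig
  rw [if_pos h]

theorem covers_of_digits (k : ℕ) (w : Fin 8 → Fin 4)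
    (h : ∀ j : Fin 8, (k + j.val) % 4 = 0 ∨ dig (k + j.val) = (w j).val) :
    Covers u ((k : ℕ) : ZMod 4096) w := by
  intro j
  have e : ((k : ℕ) : ZMod 4096) + ((j : ℕ) : ZMod 4096) = ((k + j.val : ℕ) : ZMod 4096) := by
    push_cast
    ring
  rw [e, u_natCast]
  rcases h j with h | h
  · left
    exact ltr_none _ h
  · by_cases h2 : (k + j.val) % 4 = 0
    · left
      exact ltr_none _ h2
    · right
      rw [ltr_some _ h2]
      congr 1
      exact Fin.ext h

theorem digits_of_covers (k : ℕ) (w : Fin 8 → Fin 4) (h : Covers u ((k : ℕ) : ZMod 4096) w)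
    (j : Fin 8) : (k + j.val) % 4 = 0 ∨ dig (k + j.val) = (w j).val := by
  have h1 := h j
  have e : ((k : ℕ) : ZMod 4096) + ((j : ℕ) : ZMod 4096) = ((k + j.val : ℕ) : ZMod 4096) := by
    push_cast
    ring
  rw [e, u_natCast] at h1
  by_cases h2 : (k + j.val) % 4 = 0
  · left
    exact h2
  · right
    rcases h1 with h1 | h1
    · exact absurd ((ltr_eq_none_iff _).1 h1) h2
    · rw [ltr_some _ h2] at h1
      have := Option.some.inj h1
      exact congrArg Fin.val this

theorem exists_covers (w : Fin 8 → Fin 4) :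
    ∃ k, k < 4096 ∧ Covers u ((k : ℕ) : ZMod 4096) w := by
  obtain ⟨k, hk, c, c', hc, hc', hw⟩ := exists_index (num w) (num_lt w)
  refine ⟨k, hk, covers_of_digits k w ?_⟩
  have g0 := (w 0).isLt
  have g1 := (w 1).isLt
  have g2 := (w 2).isLt
  have g3 := (w 3).isLt
  have g4 := (w 4).isLt
  have g5 := (w 5).isLt
  have g6 := (w 6).isLt
  have g7 := (w 7).isLt
  have d0 := dig_lt k
  have d1 := dig_lt (k + 1)
  have d2 := dig_lt (k + 2)
  have d3 := dig_lt (k + 3)
  have d4 := dig_lt (k + 4)
  have d5 := dig_lt (k + 5)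
  have d6 := dig_lt (k + 6)
  have d7 := dig_lt (k + 7)
  have z0 := dig_zero k
  have z1 := dig_zero (k + 1)
  have z2 := dig_zero (k + 2)
  have z3 := dig_zero (k + 3)
  have z4 := dig_zero (k + 4)
  have z5 := dig_zero (k + 5)
  have z6 := dig_zero (k + 6)
  have z7 := dig_zero (k + 7)
  unfold num code at hw
  have hr : k % 4 = 0 ∨ k % 4 = 1 ∨ k % 4 = 2 ∨ k % 4 = 3 := by omega
  have key : (k % 4 = 0 ∨ dig k = (w 0).val) ∧ ((k + 1) % 4 = 0 ∨ dig (k + 1) = (w 1).val) ∧
      ((k + 2) % 4 = 0 ∨ dig (k + 2) = (w 2).val) ∧ ((k + 3) % 4 = 0 ∨ dig (k + 3) = (w 3).val) ∧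
      ((k + 4) % 4 = 0 ∨ dig (k + 4) = (w 4).val) ∧ ((k + 5) % 4 = 0 ∨ dig (k + 5) = (w 5).val) ∧
      ((k + 6) % 4 = 0 ∨ dig (k + 6) = (w 6).val) ∧ ((k + 7) % 4 = 0 ∨ dig (k + 7) = (w 7).val) := by
    rcases hr with hr | hr | hr | hr
    · have e : wt (k % 4) = 1 := by rw [hr]; rfl
      rw [e] at hw
      have y0 := z0 (by omega)
      have y4 := z4 (by omega)
      omega
    · have e : wt (k % 4) = 64 := by rw [hr]; rfl
      rw [e] at hw
      have y3 := z3 (by omega)
      have y7 := z7 (by omega)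
      omega
    · have e : wt (k % 4) = 16 := by rw [hr]; rfl
      rw [e] at hw
      have y2 := z2 (by omega)
      have y6 := z6 (by omega)
      omega
    · have e : wt (k % 4) = 4 := by rw [hr]; rfl
      rw [e] at hw
      have y1 := z1 (by omega)
      have y5 := z5 (by omega)
      omega
  obtain ⟨k0, k1, k2, k3, k4, k5, k6, k7⟩ := key
  intro j
  fin_cases j
  · exact k0
  · exact k1
  · exact k2
  · exact k3
  · exact k4
  · exact k5
  · exact k6
  · exact k7

/-- The first wildcard position of the window at `i`. -/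
def pos (i : ZMod 4096) : ℕ := (4 - i.val % 4) % 4

/-- The word obtained from the window at `p.1` by filling the wildcards with `p.2`. -/
def fill (p : ZMod 4096 × (Fin 4 × Fin 4)) (j : Fin 8) : Fin 4 :=
  if (p.1.val + j.val) % 4 = 0 then (if j.val < 4 then p.2.1 else p.2.2)
  else ⟨dig (p.1.val + j.val), dig_lt _⟩

theorem fill_of_covers (i : ZMod 4096) (w : Fin 8 → Fin 4) (h : Covers u i w) :
    ∃ c : Fin 4 × Fin 4, fill (i, c) = w := by
  have hi : ((i.val : ℕ) : ZMod 4096) = i := ZMod.natCast_zmod_val i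
  rw [← hi] at h
  have hd := digits_of_covers i.val w h
  have hp : pos i < 4 := Nat.mod_lt _ (by norm_num)
  refine ⟨(w ⟨pos i, by omega⟩, w ⟨pos i + 4, by omega⟩), ?_⟩
  funext j
  unfold fill
  simp only
  by_cases h0 : (i.val + j.val) % 4 = 0
  · rw [if_pos h0]
    by_cases h1 : j.val < 4
    · rw [if_pos h1]
      congr 1
      apply Fin.ext
      simp only [pos]
      omega
    · rw [if_neg h1]
      congr 1
      apply Fin.ext
      simp only [pos]
      have := j.isLt
      omega
  · rw [if_neg h0]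
    apply Fin.ext
    rcases hd j with h2 | h2
    · exact absurd h2 h0
    · exact h2

theorem fill_surjective : Function.Surjective fill := by
  intro w
  obtain ⟨k, _, hk⟩ := exists_covers w
  obtain ⟨c, hc⟩ := fill_of_covers _ w hk
  exact ⟨_, hc⟩

theorem fill_injective : Function.Injective fill := by
  have hcard : Fintype.card (ZMod 4096 × (Fin 4 × Fin 4)) = Fintype.card (Fin 8 → Fin 4) := by
    rw [Fintype.card_prod, ZMod.card, Fintype.card_prod, Fintype.card_fin, Fintype.card_fun,
      Fintype.card_fin, Fintype.card_fin]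
    norm_num
  exact ((Fintype.bijective_iff_surjective_and_card fill).2 ⟨fill_surjective, hcard⟩).1

theorem upcycle : IsUpcycle 8 u := by
  intro w
  obtain ⟨k, _, hk⟩ := exists_covers w
  refine ⟨_, hk, ?_⟩
  intro i hi
  obtain ⟨c, hc⟩ := fill_of_covers _ w hk
  obtain ⟨c', hc'⟩ := fill_of_covers _ w hi
  have := fill_injective (hc'.trans hc.symm)
  exact congrArg Prod.fst this

theorem diamonds : HasDiamondicity 8 u 2 := by
  intro i
  have hi : ((i.val : ℕ) : ZMod 4096) = i := ZMod.natCast_zmod_val i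
  have hset : (Finset.univ.filter fun j : Fin 8 => u (i + ((j : ℕ) : ZMod 4096)) = none)
      = Finset.univ.filter fun j : Fin 8 => (i.val % 4 + j.val) % 4 = 0 := by
    apply Finset.filter_congr
    intro j _
    have e : i + ((j : ℕ) : ZMod 4096) = ((i.val + j.val : ℕ) : ZMod 4096) := by
      push_cast
      rw [hi]
    rw [e, u_natCast, ltr_eq_none_iff]
    constructor <;> intro h <;> omega
  rw [hset]
  have hr : i.val % 4 = 0 ∨ i.val % 4 = 1 ∨ i.val % 4 = 2 ∨ i.val % 4 = 3 := by omega
  rcases hr with hr | hr | hr | hr <;> rw [hr] <;> decide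

/-- There is a non-trivial universal partial cycle with diamondicity greater than one; in fact
one of length 4096 for the words of length eight over four letters, with diamondicity two. -/
theorem result : ∃ (a n N d : ℕ) (v : ZMod N → Option (Fin a)), 2 ≤ a ∧ 1 ≤ n ∧ 1 ≤ N ∧ 1 < d ∧
    IsUpcycle n v ∧ (∃ i, v i = none) ∧ (∃ i, v i ≠ none) ∧ HasDiamondicity n v d := by
  refine ⟨4, 8, 4096, 2, u, by norm_num, by norm_num, by norm_num, by norm_num, upcycle, ?_, ?_,
    diamonds⟩
  · refine ⟨((0 : ℕ) : ZMod 4096), ?_⟩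
    rw [u_natCast]
    exact ltr_none 0 rfl
  · refine ⟨((1 : ℕ) : ZMod 4096), ?_⟩
    rw [u_natCast, ltr_some 1 (by norm_num)]
    simp

end Pool.Agent.Results.MP_f32aed_co.Diamondicity
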